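import Mathlib
import Pool.Agent.V11295.StrInt

set_option autoImplicit false

/-! # Sets of integers covered by few sets of small doubling

Let `A ⊂ ℕ` be a finite set that contains a `k`-term progression of difference `d` for every `d` in a
finite set `R` (for instance `R = {1, …, N}`), and suppose that `A` is covered by `|R| ^ η` sets `D`,
unrelated to each other, with `|D + D| ≤ |R| ^ η |D|` and `|D| ≤ |R| ^ η |A|`. Then
`|A| ≥ |R| ^ (1 - 1 / k - ε)`, and the exponent `1 - 1 / k` is best possible for such sets, for every `k`,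
already for `R = {0, …, N}`. -/

open Finset
open scoped Pointwise

namespace Pool.Agent.Results.MP_ba96da_co.SmallDoublingCovers

/-- `A` contains a `k`-term progression of difference `d` -/
def HasAP (k d : ℕ) (A : Finset ℕ) : Prop := ∃ a : ℕ, ∀ i : ℕ, i < k → a + i * d ∈ A

/-- `A` is covered by at most `L` finite sets `D ⊂ ℕ` with `|D + D| ≤ K |D|` and `|D| ≤ M`. -/
def Structured (K L M : ℝ) (A : Finset ℕ) : Prop :=
  ∃ 𝒟 : Finset (Finset ℕ), (𝒟.card : ℝ) ≤ L ∧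
    (∀ D ∈ 𝒟, ((D + D).card : ℝ) ≤ K * D.card ∧ (D.card : ℝ) ≤ M) ∧ ∀ x ∈ A, ∃ D ∈ 𝒟, x ∈ D

theorem result :
    -- the inequality
    (∀ k : ℕ, 1 ≤ k → ∃ C : ℕ, ∀ R A : Finset ℕ, R.Nonempty → (∀ d ∈ R, HasAP k d A) →
      ∀ K L M : ℝ, Structured K L M A → (R.card : ℝ) ^ (k - 1) ≤ (K * L) ^ C * M ^ k) ∧
    -- sizes of structured sets
    (∀ k : ℕ, 1 ≤ k → ∀ s : ℝ, s < 1 - 1 / k → ∃ η : ℝ, 0 < η ∧
      ∀ R A : Finset ℕ, R.Nonempty → (∀ d ∈ R, HasAP k d A) →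
        Structured ((R.card : ℝ) ^ η) ((R.card : ℝ) ^ η) ((R.card : ℝ) ^ η * A.card) A →
        (R.card : ℝ) ^ s ≤ A.card) ∧
    -- the exponent is best possible
    (∀ k : ℕ, 1 ≤ k → ∃ c : ℝ, 0 < c ∧ ∀ m : ℕ, 1 ≤ m → ∃ A : Finset ℕ,
      (∀ d : ℕ, d < m ^ k → HasAP k d A) ∧ Structured c k A.card A ∧
        (A.card : ℝ) ≤ c * (m : ℝ) ^ (k - 1)) := by
  refine ⟨fun k hk => ?_, fun k hk s hs => ?_, fun k hk => ?_⟩
  · obtain ⟨k, rfl⟩ : ∃ m, k = m + 1 := ⟨k - 1, by omega⟩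
    obtain ⟨C, hC⟩ := Pool.Agent.V11295.StrInt.ineq k
    refine ⟨C, fun R A hR hP K L M hS => ?_⟩
    rw [Nat.add_sub_cancel]
    exact hC R A hR hP K L M hS
  · obtain ⟨k, rfl⟩ : ∃ m, k = m + 1 := ⟨k - 1, by omega⟩
    have h1 : (0 : ℝ) < (k : ℝ) + 1 := by positivity
    have h2 : s * (k + 1) < k := by
      push_cast at hs
      have h3 : (1 - 1 / ((k : ℝ) + 1)) * (k + 1) = k := by
        field_simp
        ring
      calc s * (k + 1) < (1 - 1 / ((k : ℝ) + 1)) * (k + 1) := mul_lt_mul_of_pos_right hs h1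
        _ = k := h3
    exact Pool.Agent.V11295.StrInt.asym k s h2
  · exact Pool.Agent.V11295.StrInt.example_set k hk

end Pool.Agent.Results.MP_ba96da_co.SmallDoublingCovers
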